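import Pool.Agent.Helper98.Lang.Defs
import Pool.Agent.Helper92.Avg.Series

/-!
# Project MD (MP_c307ca_nt): multiples and division points of an algebraic number

The numbers `(s a ξ + b) / d`, `1 ≤ a ≤ M`, `0 ≤ b < d`.
-/

set_option autoImplicit false

open Finset
open scoped Classical

namespace Pool.Agent.Helper87.MD

open Pool.Agent.Helper98.Lang

/-- `log q ^ (1 + ε)` -/
noncomputable def LL (ε : ℝ) (q : ℕ) : ℝ := Real.log (q : ℝ) ^ (1 + ε)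

/-- the threshold `c d' / (q L(q))`, `d' = d / gcd (d, q)` -/
noncomputable def et (c ε : ℝ) (d q : ℕ) : ℝ := c * ((d / Nat.gcd d q : ℕ) : ℝ) / (q * LL ε q)

/-- the number of `a ≤ M` with `‖s a q' ξ‖ ≤ et < 1/2`, `q' = q / gcd (d, q)` -/
noncomputable def WW (ξ c ε : ℝ) (s M d q : ℕ) : ℕ :=
  ((Icc 1 M).filter (fun a : ℕ => et c ε d q < 1 / 2 ∧
    nd ((s : ℝ) * a * ((q / Nat.gcd d q : ℕ) : ℝ) * ξ) ≤ et c ε d q)).card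

/-- **CNT.** The residues `b` for one `θ = s a ξ` and one `q`.

Proof. Let `g = gcd d q`, `d = g d'`, `q = g q'`. Multiply by `d q` and divide by `g`: the condition is
`|θ q' + (b q' - p d')| ≤ et`. As `gcd (q', d') = 1`, for every integer `P` there are exactly `g`
numbers `b < d` with `b q' ≡ P mod d'`. If `et ≥ 1/2` there are at most `2 et + 1 ≤ 4 et` integers `P`
with `|θ q' + P| ≤ et`, and `g * 4 et = 4 c d / (q L)`; if `et < 1/2` there is at most one such `P`,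
and then `nd (θ q') ≤ et`. -/
def CntStmt : Prop := ∀ (θ c ε : ℝ) (d q : ℕ), 0 < c → 1 ≤ d → 2 ≤ q →
  (((range d).filter (fun b : ℕ => ∃ p : ℤ,
      |(θ + b) / d - (p : ℝ) / q| ≤ c / ((q : ℝ) ^ 2 * LL ε q))).card : ℝ)
    ≤ 4 * c * d / (q * LL ε q) + (Nat.gcd d q : ℝ) *
      (if et c ε d q < 1 / 2 ∧ nd (θ * ((q / Nat.gcd d q : ℕ) : ℝ)) ≤ et c ε d q then 1 else 0)

/-- **LAT.** The lattice lemma.

Proof. Let `N` be the number on the left, `c₁` the constant of `RothP ξ` for `δ`. If `N = 0` or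
`η ≥ 1/4` it is trivial (`N ≤ X ≤ 4 η X`). Put `r(x) = x s ξ - round (x s ξ)`. Let `w` be the least
positive integer with `nd (w s ξ) ≤ 2 η` (`w ≤ X`), `ρ = nd (w s ξ) > 0`; by symmetry (`ξ → -ξ`)
`r(w) = ρ`. Elements: `1 ≤ x ≤ X`, `|r(x)| ≤ η`. From an element go down by steps `w` as long as one
stays among the elements; along such a chain `r` changes by exactly `ρ` each time, so a chain has at
most `1 + min (2 η / ρ, X / w) ≤ 1 + (2 η X / (ρ w)) ^ (1/2)` elements. Starts of chains: at most one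
`x ≤ w` (minimality of `w`), and `x > w` with `r(x) < -η + ρ`; for two of the latter, `u = x' - x` has
`r(u) = τ`, `|τ| < ρ`, so `u > w`, and the integer `w τ - u ρ` is not `0` (`|w τ| < u ρ`), so
`1 ≤ 2 u ρ`. So there are at most `2 + 2 ρ X` starts, and (`ρ ≤ 2 η`)
`N ≤ (2 + 2 ρ X) (1 + min ..) ≤ 2 + 8 η X + 2 (2 η X / (ρ w)) ^ (1/2)`. Finally
`ρ w ≥ c₁ s ^ (-1-δ) X ^ (-δ)`, and `N ≥ 1` gives `η (s X) ^ (1+δ) ≥ c₁`, which absorbs the `2`. -/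
def LatStmt : Prop := ∀ ξ : ℝ, RothP ξ → ∀ δ : ℝ, 0 < δ → ∃ C : ℝ, 0 < C ∧
  ∀ (s X : ℕ) (η : ℝ), 1 ≤ s → 1 ≤ X → 0 < η →
    (((Icc 1 X).filter (fun x : ℕ => nd ((x : ℝ) * (s * ξ)) ≤ η)).card : ℝ)
      ≤ C * (η * X + (η * ((s : ℝ) * X) ^ (1 + δ)) ^ ((1 : ℝ) / 2))

/-- **SIG.** `σ(d) / d ≤ C (log K) ^ η`.

Proof. `∑_{g ∣ d} 1/g ≤ ∏_{p ∣ d} (1 - 1/p)⁻¹ ≤ C₀ ∏_{p ∣ d} (1 + 1/p)` (`(1 - 1/p)⁻¹ ≤ (1 + 1/p)(1 + 2/p²)`).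
With `y = ⌈log K⌉`: the primes `≤ y` give at most `V y ≤ C log y` (`GMer`, proved:
`Pool.Agent.Helper87.Lang.mer`), the at most `2 log K` primes `> y` give at most
`exp (2 log K / y) ≤ e ^ 2`. And `log log K ≤ C' (log K) ^ η`. -/
def SigStmt : Prop := ∀ η : ℝ, 0 < η → ∃ C : ℝ, 0 < C ∧ ∀ d K : ℕ, 1 ≤ d → d ≤ K → 3 ≤ K →
  ∑ g ∈ d.divisors, 1 / (g : ℝ) ≤ C * Real.log K ^ η

/-- **SMQ.** Small denominators.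

Proof. As `Pool.Agent.Helper59.Lang.count_le` (copy it): `GFej` (proved:
`Pool.Agent.Helper8.Lang.fej`) with `δ = (1 - α) / 8`, `d := s q'` (`q' = q / gcd`),
`H = ⌊1 / (2 et)⌋ ≥ 1`; if `et ≥ 1/2` then `WW = 0`. The main term is
`gcd * 3 / H * M ≤ gcd * 12 et M = 12 c d M / (q L)`; the error is at most
`gcd C₀ (1 / (2 et)) ^ δ (s q') ^ (1 + δ) ≤ C q ^ (1 + 3 δ) s ^ (1 + δ)` (`1 / et ≤ C_ε q ^ 2 / c`,
`Pool.Agent.Helper59.Lang.l_le`) `≤ C K ^ (κ (1 + 3 κ) + α (1 + κ))` with `κ = δ = (1 - α) / 8`, and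
`κ (1 + 3 κ) + α (1 + κ) < 1 - 2 κ` as `1 - α = 8 κ`, `1 + 3 κ + α < 6`. -/
def SmqStmt : Prop := ∀ ξ : ℝ, RothP ξ → ∀ ε c α : ℝ, 0 < ε → 0 < c → 0 ≤ α → α < 1 →
  ∃ N0 : ℕ, ∀ M d s q : ℕ, N0 ≤ M * d → 1 ≤ s → (s : ℝ) ≤ ((M * d : ℕ) : ℝ) ^ α → 2 ≤ q →
    (q : ℝ) ≤ ((M * d : ℕ) : ℝ) ^ ((1 - α) / 8) →
    (Nat.gcd d q : ℝ) * WW ξ c ε s M d q
      ≤ 12 * c * ((M * d : ℕ) : ℝ) / (q * LL ε q) + ((M * d : ℕ) : ℝ) ^ (1 - (1 - α) / 4)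

/-- the threshold of the block `[R, 2R)` for the divisor `g` of `d` -/
noncomputable def eb (c ε : ℝ) (d g R : ℕ) : ℝ := c * ((d / g : ℕ) : ℝ) / (R * LL ε R)

/-- the number of pairs `(a, q')` of a block -/
noncomputable def SS (ξ c ε : ℝ) (s M d g R : ℕ) : ℕ :=
  (((Icc 1 M) ×ˢ (Icc 1 (2 * R))).filter (fun x : ℕ × ℕ => R ≤ g * x.2 ∧ g * x.2 < 2 * R ∧
    nd ((s : ℝ) * x.1 * x.2 * ξ) ≤ eb c ε d g R)).card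

/-- **BLA.** Small divisors `g`.

Proof. `K = M d`, `κ₁ = min κ (1 - α) / 40`, `X = ⌊2 M R / g⌋` (`R / g ≥ 1`). If `eb ≥ 1/4`:
`SS ≤ M * #{q' : R ≤ g q' < 2 R} ≤ 2 M R / g ≤ 8 eb M R / g = 8 c K / (g ^ 2 L(R))`. If `eb < 1/4`: as
in `Pool.Agent.Helper54.Lang.dyad` (copy `dy_mult`, `dy_lev`, `dy_count`): `x = a q' ≤ X`, and for
every `x` the `q' ∣ x` with `R ≤ g q' < 2 R` are pairwise within a factor 2, so at most `DD x` of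
them (`GDDM`, proved: `ddm98`). `H = ⌊1 / (2 eb)⌋`, `1 / H ≤ 4 eb`, `1 / H ≥ 2 eb`, Fejér majorant
`G` (`GFej` with small `δ`), weights `g_x = G (x s ξ)`: level of distribution `z ^ 2`,
`z = ⌊K ^ κ₁⌋`, `Y = c₀ X ≥ 2 c K / (g ^ 2 L)`, `E = 3 + C₀ H ^ δ (s z ^ 2) ^ (1 + δ)`; exponents:
`z ^ 4 E ≤ K ^ (α + 10 κ₁)`, `Y ≥ K ^ (1 - 3 κ₁)`, `1 - α ≥ 40 κ₁`. `GNT` (proved: `ntAll pref98 ddm98`)
gives `SS ≤ C Y (log z) ^ η ≤ C * 12 eb * (2 M R / g) (log K) ^ η = 24 C c K (log K) ^ η / (g ^ 2 L(R))`,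
`L(R) ≥ (κ log K) ^ (1 + ε)`. -/
def BlaStmt : Prop := ∀ ξ : ℝ, RothP ξ → ∀ ε η κ A c α : ℝ, 0 < ε → 0 < η → 0 < κ → κ ≤ A →
  0 < c → 0 ≤ α → α < 1 → ∃ (C : ℝ) (N0 : ℕ), 0 < C ∧ ∀ M d s g R : ℕ, N0 ≤ M * d → 1 ≤ s →
    (s : ℝ) ≤ ((M * d : ℕ) : ℝ) ^ α → g ∣ d →
    (g : ℝ) ≤ ((M * d : ℕ) : ℝ) ^ (min κ (1 - α) / 40) →
    ((M * d : ℕ) : ℝ) ^ κ ≤ R → (R : ℝ) ≤ ((M * d : ℕ) : ℝ) ^ A →
    (SS ξ c ε s M d g R : ℝ)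
      ≤ C * ((M * d : ℕ) : ℝ) * Real.log ((M * d : ℕ) : ℝ) ^ (η - 1 - ε) / (g : ℝ) ^ 2

/-- **BLB.** Large divisors `g`, from `LatStmt` and the divisor bound
(`Pool.Agent.Helper92.Field.divisor_bound`).

Proof. `κ₁ = min κ (1 - α) / 40`; if `2 R < g` then `SS = 0`. Every pair has `x = a q' ≤ X = ⌊2 M R / g⌋`,
`nd (x s ξ) ≤ eb`, and at most `τ(x) ≤ K ^ (κ₁/8)` pairs have the same `x`. `LatStmt` with small `δ`: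
`eb X ≤ 2 c K / g ^ 2` (`L(R) ≥ 1`), `eb (s X) ^ (1 + δ) ≤ (2 c K / g ^ 2) K ^ (α (1 + δ) + (A + 2) δ)`, so
`g SS ≤ K ^ (κ₁/8) C (2 c K ^ (1 - κ₁) + (2 c) ^ (1/2) K ^ ((1 + α) / 2 + ..)) ≤ K ^ (1 - κ₁ / 2)`. -/
def BlbStmt : Prop := ∀ ξ : ℝ, RothP ξ → ∀ ε κ A c α : ℝ, 0 < ε → 0 < κ → κ ≤ A → 0 < c →
  0 ≤ α → α < 1 → ∃ N0 : ℕ, ∀ M d s g R : ℕ, N0 ≤ M * d → 1 ≤ s →
    (s : ℝ) ≤ ((M * d : ℕ) : ℝ) ^ α → g ∣ d →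
    ((M * d : ℕ) : ℝ) ^ (min κ (1 - α) / 40) < g →
    ((M * d : ℕ) : ℝ) ^ κ ≤ R → (R : ℝ) ≤ ((M * d : ℕ) : ℝ) ^ A →
    (g : ℝ) * SS ξ c ε s M d g R ≤ ((M * d : ℕ) : ℝ) ^ (1 - min κ (1 - α) / 80)

/-- **REG.** Regrouping by `g = gcd d q`.

Proof. For `q ∈ [R, 2R)`, `g = gcd d q`, `q = g q'`: `et c ε d q ≤ eb c ε d g R` (`R ≤ q`, `2 ≤ R`), so
the pairs `(q, a)` counted in the `WW` with `gcd d q = g` inject into the pairs `(a, q')` of `SS`. -/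
def RegStmt : Prop := ∀ (ξ c ε : ℝ) (s M d R : ℕ), 0 < c → 0 < ε → 1 ≤ d → 2 ≤ R →
  ∑ q ∈ Ico R (2 * R), (Nat.gcd d q : ℝ) * WW ξ c ε s M d q
    ≤ ∑ g ∈ d.divisors, (g : ℝ) * SS ξ c ε s M d g R

/-- one dyadic block -/
def BlkStmt : Prop := ∀ ξ : ℝ, RothP ξ → ∀ ε η κ A c α : ℝ, 0 < ε → 0 < η → 0 < κ → κ ≤ A →
  0 < c → 0 ≤ α → α < 1 → ∃ (C : ℝ) (N0 : ℕ), 0 < C ∧ ∀ M d s R : ℕ, N0 ≤ M * d → 1 ≤ s →
    (s : ℝ) ≤ ((M * d : ℕ) : ℝ) ^ α →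
    ((M * d : ℕ) : ℝ) ^ κ ≤ R → (R : ℝ) ≤ ((M * d : ℕ) : ℝ) ^ A →
    ∑ q ∈ Ico R (2 * R), (Nat.gcd d q : ℝ) * WW ξ c ε s M d q
      ≤ C * ((M * d : ℕ) : ℝ) * Real.log ((M * d : ℕ) : ℝ) ^ (η - 1 - ε)

/-- **BLK.** From BLA (with `η / 3`), BLB, SIG (with `η / 3`), REG and the divisor bound
(`divisors.card ≤ C d ^ (κ₁ / 4)`, `κ₁ = min κ (1 - α) / 40`): the `g ≤ K ^ κ₁` give
`C K (log K) ^ (η/3 - 1 - ε) ∑ 1/g`, the others `K ^ (1 - κ₁/2) τ(d) ≤ K ^ (1 - κ₁/4)`. -/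
def BlkGoal : Prop := BlaStmt → BlbStmt → SigStmt → RegStmt → BlkStmt

/-- large denominators -/
def LrgStmt : Prop := ∀ ξ : ℝ, RothP ξ → ∀ ε ε' κ A c α : ℝ, 0 < ε → ε' < ε → 0 < κ →
  0 < c → 0 ≤ α → α < 1 → ∃ N0 : ℕ, ∀ M d s : ℕ, N0 ≤ M * d → 1 ≤ s →
    (s : ℝ) ≤ ((M * d : ℕ) : ℝ) ^ α →
    ∑ q ∈ (Icc 2 ⌊((M * d : ℕ) : ℝ) ^ A⌋₊).filter (fun q : ℕ => ((M * d : ℕ) : ℝ) ^ κ ≤ q),
        (Nat.gcd d q : ℝ) * WW ξ c ε s M d q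
      ≤ ((M * d : ℕ) : ℝ) / Real.log ((M * d : ℕ) : ℝ) ^ ε'

/-- **LRG.** Sum of the blocks `[2 ^ i, 2 ^ (i + 1))`, `K ^ (κ/2) ≤ 2 ^ i ≤ K ^ (max A κ)`: at most
`C log K` of them, each at most `C K (log K) ^ (η - 1 - ε)` with `η = (ε - ε') / 2` or smaller
(`Pool.Agent.Helper88.Lang.large` is the model, it has one dyadic parameter more). -/
def LrgGoal : Prop := BlkStmt → LrgStmt

/-- the theorem -/
def MainStmt : Prop := ∀ ε ε' : ℝ, 0 < ε → 0 ≤ ε' → ε' < ε → ∃ C : ℝ, ∀ ξ : ℝ, IsAlgebraic ℚ ξ →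
  Irrational ξ → ∀ c A α : ℝ, 0 < c → α < 1 → ∃ N0 : ℕ, ∀ M d s : ℕ, N0 ≤ M * d → 1 ≤ s →
    (s : ℝ) ≤ ((M : ℝ) * d) ^ α → ∀ Q : ℝ, 2 ≤ Q →
    ({x : ℕ × ℕ | 1 ≤ x.1 ∧ x.1 ≤ M ∧ x.2 < d ∧ ∃ (p : ℤ) (q : ℕ), Q ≤ q ∧
        (q : ℝ) ≤ ((M : ℝ) * d) ^ A ∧
        |((s : ℝ) * x.1 * ξ + x.2) / d - (p : ℝ) / (q : ℝ)|
          ≤ c / ((q : ℝ) ^ 2 * Real.log (q : ℝ) ^ (1 + ε))}.ncard : ℝ)
      ≤ C * c * ((M : ℝ) * d) / Real.log Q ^ ε'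

/-- **FIN.** Model: `Pool.Agent.Helper98.Lang.final2`, `small2`. The set of pairs is covered by the sets
for the single `q ∈ [Q, K ^ A]`; `CNT` for `θ = s a ξ`, summed over `a ≤ M`, bounds the number of pairs
for `q` by `4 c K / (q L(q)) + gcd WW(q)`. The first terms: `phi`, `Zsum`, `summable_phi` of
`Pool.Agent.Helper92.Avg.Series` as in `small2` (`phi ε q ≤ phi (ε - ε') q / log Q ^ ε'`). The second: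
`SmqStmt` for `q ≤ K ^ ((1 - α) / 8)` (sum of the errors `≤ K ^ (1 - (1 - α) / 8) ≤ c K / log Q ^ ε'`
as `log Q ≤ A log K`, otherwise the set is empty), `LrgStmt` with `κ = (1 - α) / 8`, `ε'' = (ε + ε') / 2`
for the others. First replace `α` by `max α 0`. -/
def FinGoal : Prop := GRoth → CntStmt → SmqStmt → LrgStmt → MainStmt

end Pool.Agent.Helper87.MD
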