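import Pool.Agent.Helper98.Lang.Asm
import Pool.Agent.Helper34.MD.CNT
import Pool.Agent.Helper24.MD.LAT
import Pool.Agent.Helper29.MD.SIG
import Pool.Agent.Helper66.MD.SMQ
import Pool.Agent.Helper81.MD.BLA0
import Pool.Agent.Helper44.MD.BLB
import Pool.Agent.Helper13.MD.REG
import Pool.Agent.Helper12.MD.BLK
import Pool.Agent.Helper23.MD.LRG
import Pool.Agent.Helper85.MD.FIN

/-!
# Project MD: multiples and division points of an algebraic number, assembly
-/

set_option autoImplicit false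

namespace Pool.Agent.Helper87.MD

open Pool.Agent.Helper98.Lang

theorem blk : BlkStmt :=
  Pool.Agent.Helper12.MD.mdBLK
    (Pool.Agent.Helper81.MD.bla0 Pool.Agent.Helper8.Lang.fej (ntAll pref98 ddm98) ddm98)
    (Pool.Agent.Helper44.MD.mdBLB Pool.Agent.Helper24.MD.lat) Pool.Agent.Helper29.MD.mdSIG
    Pool.Agent.Helper13.MD.mdREG

/-- The main theorem. -/
theorem main : MainStmt :=
  Pool.Agent.Helper85.MD.mdFIN Helper89Roth.roth Pool.Agent.Helper34.MD.mdCNT
    (Pool.Agent.Helper66.MD.mdSMQ Pool.Agent.Helper8.Lang.fej) (Pool.Agent.Helper23.MD.mdLRG blk)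

end Pool.Agent.Helper87.MD
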