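import Pool.Agent.Helper87.MD.Goals

/-! # Project MD: the theorem contains `IntegerMultiples` -/

set_option autoImplicit false

namespace Pool.Agent.Helper87.MD

/-- `IntegerMultiples` is the case `d = s = 1`, `α = 0`. -/
theorem contains (main : MainStmt) (ε ε' : ℝ) (hε : 0 < ε) (hε'0 : 0 ≤ ε') (hε' : ε' < ε) :
    ∃ C : ℝ, ∀ ξ : ℝ, IsAlgebraic ℚ ξ → Irrational ξ → ∀ c A : ℝ, 0 < c →
      ∃ N0 : ℕ, ∀ N : ℕ, N0 ≤ N → ∀ Q : ℝ, 2 ≤ Q →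
        ({a : ℕ | 1 ≤ a ∧ a ≤ N ∧ ∃ (p : ℤ) (q : ℕ), Q ≤ q ∧ (q : ℝ) ≤ (N : ℝ) ^ A ∧
          |(a : ℝ) * ξ - (p : ℝ) / (q : ℝ)|
            ≤ c / ((q : ℝ) ^ 2 * Real.log (q : ℝ) ^ (1 + ε))}.ncard : ℝ)
          ≤ C * c * N / Real.log Q ^ ε' := by
  obtain ⟨C, hC⟩ := main ε ε' hε hε'0 hε'
  refine ⟨C, fun ξ h1 h2 c A hc => ?_⟩
  obtain ⟨N0, hN⟩ := hC ξ h1 h2 c A 0 hc one_pos
  refine ⟨N0, fun N hN1 Q hQ => ?_⟩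
  have h := hN N 1 1 (by simpa using hN1) le_rfl (by simp) Q hQ
  have e : ({x : ℕ × ℕ | 1 ≤ x.1 ∧ x.1 ≤ N ∧ x.2 < 1 ∧ ∃ (p : ℤ) (q : ℕ), Q ≤ q ∧
        (q : ℝ) ≤ ((N : ℝ) * (1 : ℕ)) ^ A ∧
        |(((1 : ℕ) : ℝ) * x.1 * ξ + x.2) / (1 : ℕ) - (p : ℝ) / (q : ℝ)|
          ≤ c / ((q : ℝ) ^ 2 * Real.log (q : ℝ) ^ (1 + ε))}.ncard : ℝ) =
      ({a : ℕ | 1 ≤ a ∧ a ≤ N ∧ ∃ (p : ℤ) (q : ℕ), Q ≤ q ∧ (q : ℝ) ≤ (N : ℝ) ^ A ∧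
          |(a : ℝ) * ξ - (p : ℝ) / (q : ℝ)|
            ≤ c / ((q : ℝ) ^ 2 * Real.log (q : ℝ) ^ (1 + ε))}.ncard : ℝ) := by
    rw [Nat.cast_inj, ← Set.ncard_image_of_injective (f := fun a : ℕ => (a, 0)) _
      (fun a b h => (Prod.mk.inj h).1)]
    congr 1
    ext ⟨a, b⟩
    simp only [Set.mem_ofPred_eq, Set.mem_image, Prod.mk.injEq, Nat.lt_one_iff, Nat.cast_one, mul_one,
      one_mul, div_one]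
    constructor
    · rintro ⟨h3, h4, rfl, h5⟩
      exact ⟨a, ⟨h3, h4, by simpa using h5⟩, rfl, rfl⟩
    · rintro ⟨a', ⟨h3, h4, h5⟩, rfl, rfl⟩
      exact ⟨h3, h4, rfl, by simpa using h5⟩
  rw [e] at h
  simpa using h

end Pool.Agent.Helper87.MD
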